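import Mathlib

/-!
# Free groups are conjugacy separable (helper94)
-/

set_option autoImplicit false

namespace Pool.Agent.H94CS

universe u

section Cocycle

variable {X : Type u} {p : ℕ} {G : Type*} [Group G]

/-- The permutation of a generator. -/
def gen (f : X → ZMod p) (d : X → ZMod p → G) (x : X) : Equiv.Perm (ZMod p × G) where
  toFun q := (q.1 - f x, d x (q.1 - f x) * q.2)
  invFun q := (q.1 + f x, (d x q.1)⁻¹ * q.2)
  left_inv q := by ext <;> simp
  right_inv q := by ext <;> simp

/-- The action. -/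
def Psi (f : X → ZMod p) (d : X → ZMod p → G) : FreeGroup X →* Equiv.Perm (ZMod p × G) :=
  FreeGroup.lift (gen f d)

/-- The degree. -/
def ph (f : X → ZMod p) : FreeGroup X →* Multiplicative (ZMod p) :=
  FreeGroup.lift fun x => Multiplicative.ofAdd (f x)

/-- The degree. -/
def deg (f : X → ZMod p) (w : FreeGroup X) : ZMod p := Multiplicative.toAdd (ph f w)

theorem deg_one (f : X → ZMod p) : deg f 1 = 0 := by simp [deg]

theorem deg_of (f : X → ZMod p) (x : X) : deg f (FreeGroup.of x) = f x := by simp [deg, ph]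

theorem deg_mul (f : X → ZMod p) (a b : FreeGroup X) : deg f (a * b) = deg f a + deg f b := by
  simp [deg]

theorem deg_inv (f : X → ZMod p) (a : FreeGroup X) : deg f a⁻¹ = - deg f a := by
  simp [deg]

theorem psi_aux (f : X → ZMod p) (d : X → ZMod p → G) (w : FreeGroup X) :
    ∀ j h, (Psi f d w (j, h)).1 = j - deg f w ∧
      (Psi f d w (j, h)).2 = (Psi f d w (j, 1)).2 * h := by
  induction w using FreeGroup.induction_on with
  | C1 => intro j h; simp [deg_one]
  | of x => intro j h; simp [Psi, gen, deg_of]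
  | inv_of x _ =>
    intro j h
    simp [Psi, gen, deg_inv, deg_of, Equiv.symm]
  | mul a b ha hb =>
    intro j h
    have e1 : Psi f d (a * b) (j, h) = Psi f d a (Psi f d b (j, h)) := by simp
    have e2 : Psi f d (a * b) (j, 1) = Psi f d a (Psi f d b (j, 1)) := by simp
    rw [e1, e2]
    have e3 : Psi f d b (j, h) = (j - deg f b, (Psi f d b (j, 1)).2 * h) := by
      ext1
      · exact (hb j h).1
      · exact (hb j h).2
    have e4 : Psi f d b (j, 1) = (j - deg f b, (Psi f d b (j, 1)).2) := by
      ext1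
      · exact (hb j 1).1
      · rfl
    rw [e3]
    refine ⟨?_, ?_⟩
    · rw [(ha _ _).1, deg_mul]; ring
    · rw [(ha _ _).2]
      conv_rhs => rw [e4]
      rw [(ha (j - deg f b) (Psi f d b (j, 1)).2).2, mul_assoc]

/-- The cocycle. -/
def c (f : X → ZMod p) (d : X → ZMod p → G) (w : FreeGroup X) (i : ZMod p) : G :=
  (Psi f d w (i + deg f w, 1)).2

theorem psi_apply (f : X → ZMod p) (d : X → ZMod p → G) (w : FreeGroup X) (j : ZMod p) (h : G) :
    Psi f d w (j, h) = (j - deg f w, c f d w (j - deg f w) * h) := by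
  ext1
  · exact (psi_aux f d w j h).1
  · rw [(psi_aux f d w j h).2]
    simp [c]

theorem c_mul (f : X → ZMod p) (d : X → ZMod p → G) (a b : FreeGroup X) (i : ZMod p) :
    c f d (a * b) i = c f d a i * c f d b (i + deg f a) := by
  have e1 : Psi f d (a * b) (i + deg f (a * b), 1) =
      Psi f d a (Psi f d b (i + deg f (a * b), 1)) := by simp
  unfold c
  rw [e1, psi_apply f d b, psi_apply f d a, deg_mul]
  have e2 : i + (deg f a + deg f b) - deg f b = i + deg f a := by ring
  rw [e2]
  simp [c]

theorem c_one (f : X → ZMod p) (d : X → ZMod p → G) (i : ZMod p) : c f d 1 i = 1 := by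
  simp [c]

theorem c_of (f : X → ZMod p) (d : X → ZMod p → G) (x : X) (i : ZMod p) :
    c f d (FreeGroup.of x) i = d x i := by
  simp [c, Psi, gen, deg_of]

theorem c_inv (f : X → ZMod p) (d : X → ZMod p → G) (a : FreeGroup X) (i : ZMod p) :
    c f d a⁻¹ i = (c f d a (i - deg f a))⁻¹ := by
  have h := c_mul f d a⁻¹ a i
  rw [inv_mul_cancel, c_one, deg_inv, ← sub_eq_add_neg] at h
  exact eq_inv_of_mul_eq_one_left h.symm

theorem c_map {G' : Type*} [Group G'] (ψ : G →* G') (f : X → ZMod p) (d : X → ZMod p → G)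
    (w : FreeGroup X) : ∀ i, c f (fun x i => ψ (d x i)) w i = ψ (c f d w i) := by
  induction w using FreeGroup.induction_on with
  | C1 => intro i; simp [c_one]
  | of x => intro i; simp [c_of]
  | inv_of x _ => intro i; simp [c_inv, c_of]
  | mul a b ha hb => intro i; simp [c_mul, ha, hb]

theorem c_rho (ρ : G →* FreeGroup X) (s : ZMod p → FreeGroup X) (f : X → ZMod p)
    (d : X → ZMod p → G) (hd : ∀ x i, ρ (d x i) = s i * FreeGroup.of x * (s (i + f x))⁻¹)
    (w : FreeGroup X) : ∀ i, ρ (c f d w i) = s i * w * (s (i + deg f w))⁻¹ := by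
  induction w using FreeGroup.induction_on with
  | C1 => intro i; simp [c_one, deg_one]
  | of x => intro i; simp [c_of, hd, deg_of]
  | inv_of x _ =>
    intro i
    rw [c_inv, c_of, map_inv, hd, deg_inv, deg_of]
    have e : i - f x + f x = i := by ring
    rw [e, ← sub_eq_add_neg]
    group
  | mul a b ha hb =>
    intro i
    rw [c_mul, map_mul, ha, hb, deg_mul, add_assoc]
    group

end Cocycle

end Pool.Agent.H94CS
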