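import Pool.Agent.H94CS.Free

/-!
# Lengths and the finite quotient (helper94)
-/

set_option autoImplicit false

namespace Pool.Agent.H94CS

universe u

section Len

variable {X : Type u} {p : ℕ}

open Classical in
/-- The labels. -/
noncomputable def lab (x0 : X) (x : X) (i : ZMod p) : FreeGroup (X × ZMod p) :=
  if x = x0 ∧ i ≠ -1 then 1 else FreeGroup.of (x, i)

theorem lab_rep (x0 x : X) (i : ZMod p) :
    ∃ M : List ((X × ZMod p) × Bool), FreeGroup.mk M = lab x0 x i ∧ M.length ≤ 1 := by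
  unfold lab
  split_ifs with h
  · exact ⟨[], rfl, by simp⟩
  · exact ⟨[((x, i), true)], rfl, by simp⟩

theorem rep_inv {Y : Type*} {g : FreeGroup Y} {n : ℕ}
    (h : ∃ M : List (Y × Bool), FreeGroup.mk M = g ∧ M.length ≤ n) :
    ∃ M : List (Y × Bool), FreeGroup.mk M = g⁻¹ ∧ M.length ≤ n := by
  obtain ⟨M, rfl, hM⟩ := h
  exact ⟨FreeGroup.invRev M, by rw [FreeGroup.inv_mk], by rwa [FreeGroup.invRev_length]⟩

theorem rep_mul {Y : Type*} {g g' : FreeGroup Y} {n n' : ℕ}
    (h : ∃ M : List (Y × Bool), FreeGroup.mk M = g ∧ M.length ≤ n)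
    (h' : ∃ M : List (Y × Bool), FreeGroup.mk M = g' ∧ M.length ≤ n') :
    ∃ M : List (Y × Bool), FreeGroup.mk M = g * g' ∧ M.length ≤ n + n' := by
  obtain ⟨M, rfl, hM⟩ := h
  obtain ⟨M', rfl, hM'⟩ := h'
  exact ⟨M ++ M', by rw [FreeGroup.mul_mk], by rw [List.length_append]; omega⟩

theorem letter_rep (f : X → ZMod p) (x0 : X) (x : X) (b : Bool) (i : ZMod p) :
    ∃ M : List ((X × ZMod p) × Bool), FreeGroup.mk M = c f (lab x0) (FreeGroup.mk [(x, b)]) i ∧
      M.length ≤ 1 := by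
  cases b with
  | true =>
    have e : (FreeGroup.mk [(x, true)] : FreeGroup X) = FreeGroup.of x := rfl
    rw [e, c_of]
    exact lab_rep x0 x i
  | false =>
    have e : (FreeGroup.mk [(x, false)] : FreeGroup X) = (FreeGroup.of x)⁻¹ := rfl
    rw [e, c_inv, c_of]
    exact rep_inv (lab_rep x0 x _)

theorem mk_cons (x : X × Bool) (L : List (X × Bool)) :
    (FreeGroup.mk (x :: L) : FreeGroup X) = FreeGroup.mk [x] * FreeGroup.mk L := by
  rw [FreeGroup.mul_mk]; rfl

theorem word_rep (f : X → ZMod p) (x0 : X) (L : List (X × Bool)) :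
    ∀ i : ZMod p, ∃ M : List ((X × ZMod p) × Bool),
      FreeGroup.mk M = c f (lab x0) (FreeGroup.mk L) i ∧ M.length ≤ L.length := by
  induction L with
  | nil =>
    intro i
    refine ⟨[], ?_, le_rfl⟩
    have e : (FreeGroup.mk [] : FreeGroup X) = 1 := rfl
    rw [e, c_one]; rfl
  | cons a L ih =>
    intro i
    rw [mk_cons, c_mul]
    obtain ⟨x, b⟩ := a
    obtain ⟨M, h1, h2⟩ := rep_mul (letter_rep f x0 x b i)
      (ih (i + deg f (FreeGroup.mk [(x, b)])))
    exact ⟨M, h1, by rw [List.length_cons]; omega⟩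

theorem letter_zero (hp : 2 ≤ p) (f : X → ZMod p) (x0 : X) (b : Bool) :
    ∃ i : ZMod p, c f (lab x0) (FreeGroup.mk [(x0, b)]) i = 1 := by
  have h01 : (0 : ZMod p) ≠ -1 := by
    have : Fact (1 < p) := ⟨by omega⟩
    intro h
    have h2 : (1 : ZMod p) = 0 := by
      have := congrArg (· + 1) h
      simpa using this
    exact one_ne_zero h2
  cases b with
  | true =>
    refine ⟨0, ?_⟩
    have e : (FreeGroup.mk [(x0, true)] : FreeGroup X) = FreeGroup.of x0 := rfl
    rw [e, c_of, lab, if_pos ⟨rfl, h01⟩]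
  | false =>
    refine ⟨f x0, ?_⟩
    have e : (FreeGroup.mk [(x0, false)] : FreeGroup X) = (FreeGroup.of x0)⁻¹ := rfl
    rw [e, c_inv, c_of, deg_of, sub_self, lab, if_pos ⟨rfl, h01⟩, inv_one]

theorem word_short (hp : 2 ≤ p) (f : X → ZMod p) (x0 : X) (L : List (X × Bool))
    (hL : ∃ b, (x0, b) ∈ L) :
    ∃ i : ZMod p, ∃ M : List ((X × ZMod p) × Bool),
      FreeGroup.mk M = c f (lab x0) (FreeGroup.mk L) i ∧ M.length < L.length := by
  induction L with
  | nil => simp at hL
  | cons a L ih =>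
    obtain ⟨x, b⟩ := a
    by_cases hx : x = x0
    · subst hx
      obtain ⟨i, hi⟩ := letter_zero hp f x b
      refine ⟨i, ?_⟩
      obtain ⟨M, h1, h2⟩ := word_rep f x L (i + deg f (FreeGroup.mk [(x, b)]))
      refine ⟨M, ?_, by rw [List.length_cons]; omega⟩
      rw [mk_cons, c_mul, hi, one_mul, h1]
    · obtain ⟨b', hb'⟩ := hL
      have h1 : (x0, b') ∈ L := by
        rcases List.mem_cons.1 hb' with h | h
        · exact absurd (congrArg Prod.fst h).symm hx
        · exact h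
      obtain ⟨i, M, h2, h3⟩ := ih ⟨b', h1⟩
      refine ⟨i - deg f (FreeGroup.mk [(x, b)]), ?_⟩
      obtain ⟨M', h4, h5⟩ := rep_mul (letter_rep f x0 x b (i - deg f (FreeGroup.mk [(x, b)])))
        ⟨M, h2, le_rfl⟩
      refine ⟨M', ?_, by rw [List.length_cons]; omega⟩
      rw [mk_cons, c_mul, h4, sub_add_cancel]

end Len

section Rho

variable {X : Type u} {p : ℕ}

theorem exists_rho (hp : 2 ≤ p) (f : X → ZMod p) (x0 : X) (hf : f x0 = 1) :
    ∃ (ρ : FreeGroup (X × ZMod p) →* FreeGroup X) (s : ZMod p → FreeGroup X),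
      ∀ w i, ρ (c f (lab x0) w i) = s i * w * (s (i + deg f w))⁻¹ := by
  have : NeZero p := ⟨by omega⟩
  have : Fact (1 < p) := ⟨by omega⟩
  let s : ZMod p → FreeGroup X := fun i => FreeGroup.of x0 ^ i.val
  refine ⟨FreeGroup.lift fun y => s y.2 * FreeGroup.of y.1 * (s (y.2 + f y.1))⁻¹, s, ?_⟩
  intro w
  refine c_rho _ s f (lab x0) ?_ w
  intro x i
  unfold lab
  split_ifs with h
  · obtain ⟨rfl, hi⟩ := h
    rw [map_one, hf]
    have h0' : i.val + 1 < p := by
      have h1 := ZMod.val_lt i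
      rcases Nat.lt_or_ge (i.val + 1) p with h2 | h2
      · exact h2
      · exfalso
        apply hi
        have h3 : i.val + 1 = p := by omega
        have h4 : ((i.val + 1 : ℕ) : ZMod p) = 0 := by rw [h3]; simp
        rw [Nat.cast_add, ZMod.natCast_zmod_val, Nat.cast_one] at h4
        exact eq_neg_of_add_eq_zero_left h4
    have hv : (i + 1).val = i.val + 1 := by
      have h0 : i.val + (1 : ZMod p).val < p := by
        rw [ZMod.val_one]
        exact h0'
      have h1 := ZMod.val_add_of_lt h0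
      rwa [ZMod.val_one] at h1
    simp only [s, hv, pow_succ]
    group
  · simp

theorem conj_of (hp : 2 ≤ p) (f : X → ZMod p) (x0 : X) (hf : f x0 = 1) {u v : FreeGroup X}
    (hu : deg f u = 0) (hv : deg f v = 0) {i j : ZMod p}
    (h : IsConj (c f (lab x0) u i) (c f (lab x0) v j)) : IsConj u v := by
  obtain ⟨ρ, s, hρ⟩ := exists_rho hp f x0 hf
  have h1 := ρ.map_isConj h
  rw [hρ, hρ, hu, hv, add_zero, add_zero] at h1
  have h2 : IsConj u (s i * u * (s i)⁻¹) := isConj_iff.2 ⟨s i, rfl⟩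
  have h3 : IsConj v (s j * v * (s j)⁻¹) := isConj_iff.2 ⟨s j, rfl⟩
  exact h2.trans (h1.trans h3.symm)

end Rho

section Quot

variable {X : Type u} {p : ℕ}

/-- The step: a finite quotient from finite quotients of the cover. -/
theorem quot_step [NeZero p] (f : X → ZMod p) {G : Type u} [Group G] (d : X → ZMod p → G)
    {u v : FreeGroup X} (hu : deg f u = 0) (hv : deg f v = 0) (i : ZMod p)
    (h : ∀ j : ZMod p, ∃ (Q : Type) (_ : Group Q) (_ : Finite Q) (ψ : G →* Q),
      ¬ IsConj (ψ (c f d u i)) (ψ (c f d v j))) :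
    ∃ (Q : Type) (_ : Group Q) (_ : Finite Q) (ψ : FreeGroup X →* Q), ¬ IsConj (ψ u) (ψ v) := by
  classical
  choose Q hQ hfin ψ hψ using h
  let Q' := ∀ j, Q j
  let ψ' : G →* Q' := MonoidHom.pi ψ
  let d' : X → ZMod p → Q' := fun x i => ψ' (d x i)
  have hc : ∀ w i, c f d' w i = ψ' (c f d w i) := fun w i => c_map ψ' f d w i
  have : Finite Q' := inferInstance
  refine ⟨(Psi f d').range, inferInstance, inferInstance, (Psi f d').rangeRestrict, ?_⟩
  intro hcon
  obtain ⟨⟨k, g, rfl⟩, hk⟩ := isConj_iff.1 hcon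
  have h1 : Psi f d' g * Psi f d' u * (Psi f d' g)⁻¹ = Psi f d' v := congrArg Subtype.val hk
  have h2 : Psi f d' (g * u) = Psi f d' (v * g) := by
    rw [map_mul, map_mul, ← h1]; group
  have h3 := congrArg (fun σ : Equiv.Perm (ZMod p × Q') => (σ (i, 1)).2) h2
  simp only [psi_apply, deg_mul, hu, hv, add_zero, zero_add, mul_one] at h3
  rw [c_mul, c_mul, hv, add_zero, sub_add_cancel, hc, hc, hc] at h3
  apply hψ (i - deg f g)
  refine isConj_iff.2 ⟨ψ (i - deg f g) (c f d g (i - deg f g)), ?_⟩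
  have h4 := congrFun h3 (i - deg f g)
  have h5 : ψ (i - deg f g) (c f d g (i - deg f g)) * ψ (i - deg f g) (c f d u i) =
      ψ (i - deg f g) (c f d v (i - deg f g)) * ψ (i - deg f g) (c f d g (i - deg f g)) := h4
  rw [h5, mul_inv_cancel_right]

end Quot

end Pool.Agent.H94CS
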