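import Pool.Agent.H94CS.Len

/-!
# Free groups are conjugacy separable: the theorem (helper94)
-/

set_option autoImplicit false

namespace Pool.Agent.H94CS

universe u

/-- Separated in a finite quotient. -/
def Sep {X : Type u} (u v : FreeGroup X) : Prop :=
  ∃ (Q : Type) (_ : Group Q) (_ : Finite Q) (ψ : FreeGroup X →* Q), ¬ IsConj (ψ u) (ψ v)

theorem Sep.symm {X : Type u} {u v : FreeGroup X} (h : Sep u v) : Sep v u := by
  obtain ⟨Q, h1, h2, ψ, h3⟩ := h
  exact ⟨Q, h1, h2, ψ, fun h => h3 h.symm⟩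

open Classical in
/-- The exponent sum. -/
noncomputable def ex {X : Type u} (x : X) : FreeGroup X →* Multiplicative ℤ :=
  FreeGroup.lift fun y => if y = x then Multiplicative.ofAdd 1 else 1

/-- The exponent sum. -/
noncomputable def e {X : Type u} (x : X) (w : FreeGroup X) : ℤ := Multiplicative.toAdd (ex x w)

theorem e_one {X : Type u} (x : X) : e x 1 = 0 := by simp [e]

theorem e_mul {X : Type u} (x : X) (a b : FreeGroup X) : e x (a * b) = e x a + e x b := by
  simp [e]

theorem e_inv {X : Type u} (x : X) (a : FreeGroup X) : e x a⁻¹ = - e x a := by simp [e]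

open Classical in
theorem e_of {X : Type u} (x y : X) : e x (FreeGroup.of y) = if y = x then 1 else 0 := by
  unfold e ex
  rw [FreeGroup.lift_apply_of]
  split_ifs <;> rfl

theorem sep_of_e {X : Type u} {u v : FreeGroup X} (x : X) (h : e x u ≠ e x v) : Sep u v := by
  set m : ℕ := (e x u - e x v).natAbs + 1 with hm
  have : NeZero m := ⟨by omega⟩
  refine ⟨Multiplicative (ZMod m), inferInstance, inferInstance,
    (AddMonoidHom.toMultiplicative (Int.castAddHom (ZMod m))).comp (ex x), ?_⟩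
  intro hc
  rw [isConj_iff_eq] at hc
  have h1 : ((e x u : ℤ) : ZMod m) = ((e x v : ℤ) : ZMod m) := congrArg Multiplicative.toAdd hc
  rw [← sub_eq_zero, ← Int.cast_sub, ZMod.intCast_zmod_eq_zero_iff_dvd] at h1
  have h2 := Int.natAbs_dvd_natAbs.2 h1
  rw [Int.natAbs_natCast] at h2
  have h3 : (e x u - e x v).natAbs ≠ 0 := by
    rw [Int.natAbs_ne_zero]
    exact sub_ne_zero.2 h
  have h4 := Nat.le_of_dvd (Nat.pos_of_ne_zero h3) h2
  omega

open Classical in
/-- The labelling function. -/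
noncomputable def ff {X : Type u} {p : ℕ} (x y : X) (a : ZMod p) (z : X) : ZMod p :=
  if z = x then 1 else if z = y then a else 0

theorem deg_ff {X : Type u} {p : ℕ} (x y : X) (a : ZMod p) (h : x ≠ y ∨ a = 0)
    (w : FreeGroup X) : deg (ff x y a) w = (e x w : ZMod p) + a * (e y w : ZMod p) := by
  classical
  have hof : ∀ z, deg (ff x y a) (FreeGroup.of z) =
      (e x (FreeGroup.of z) : ZMod p) + a * (e y (FreeGroup.of z) : ZMod p) := by
    intro z
    rw [deg_of, e_of, e_of, ff]
    by_cases h1 : z = x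
    · by_cases h2 : z = y
      · have h3 : a = 0 := by
          rcases h with h | h
          · exact absurd (h1.symm.trans h2) h
          · exact h
        simp [h1, h3]
      · simp only [h1, if_true, if_pos, h2]
        rw [if_neg (fun h3 => h2 (h1.trans h3))]
        simp
    · by_cases h2 : z = y
      · rw [if_neg h1, if_pos h2, if_neg h1, if_pos h2]
        simp
      · simp [h1, h2]
  induction w using FreeGroup.induction_on with
  | C1 => simp [deg_one, e_one]
  | of z => exact hof z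
  | inv_of z _ => rw [deg_inv, e_inv, e_inv, hof z]; push_cast; ring
  | mul b b' hb hb' => rw [deg_mul, e_mul, e_mul, hb, hb']; push_cast; ring

theorem pow_of {X : Type u} (x : X) (L : List (X × Bool)) (h : ∀ a ∈ L, a.1 = x) :
    (FreeGroup.mk L : FreeGroup X) = FreeGroup.of x ^ e x (FreeGroup.mk L) := by
  induction L with
  | nil =>
    have e1 : (FreeGroup.mk [] : FreeGroup X) = 1 := rfl
    rw [e1, e_one, zpow_zero]
  | cons a L ih =>
    rw [mk_cons, e_mul, zpow_add, ← ih fun b hb => h b (List.mem_cons_of_mem _ hb)]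
    congr 1
    obtain ⟨y, b⟩ := a
    have hy : y = x := h (y, b) List.mem_cons_self
    subst hy
    cases b with
    | true =>
      have e1 : (FreeGroup.mk [(y, true)] : FreeGroup X) = FreeGroup.of y := rfl
      rw [e1, e_of, if_pos rfl, zpow_one]
    | false =>
      have e1 : (FreeGroup.mk [(y, false)] : FreeGroup X) = (FreeGroup.of y)⁻¹ := rfl
      rw [e1, e_inv, e_of, if_pos rfl, zpow_neg, zpow_one]

theorem step (n : ℕ) (IH : ∀ (Y : Type u) (M M' : List (Y × Bool)), M.length + M'.length < n →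
      ¬ IsConj (FreeGroup.mk M) (FreeGroup.mk M') → Sep (FreeGroup.mk M) (FreeGroup.mk M'))
    {X : Type u} (L L' : List (X × Bool)) (hn : L.length + L'.length = n)
    (hne : ¬ IsConj (FreeGroup.mk L) (FreeGroup.mk L')) {p : ℕ} (hp : 2 ≤ p) (f : X → ZMod p)
    (x0 : X) (hf : f x0 = 1) (hu : deg f (FreeGroup.mk L) = 0) (hv : deg f (FreeGroup.mk L') = 0)
    (hocc : ∃ b, (x0, b) ∈ L) : Sep (FreeGroup.mk L) (FreeGroup.mk L') := by
  have : NeZero p := ⟨by omega⟩
  obtain ⟨i, M, h1, h2⟩ := word_short hp f x0 L hocc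
  refine quot_step f (lab x0) hu hv i ?_
  intro j
  obtain ⟨M', h3, h4⟩ := word_rep f x0 L' j
  have h5 : ¬ IsConj (FreeGroup.mk M) (FreeGroup.mk M') := by
    intro h
    rw [h1, h3] at h
    exact hne (conj_of hp f x0 hf hu hv h)
  have h6 := IH _ M M' (by omega) h5
  rw [h1, h3] at h6
  exact h6

theorem main (n : ℕ) : ∀ (X : Type u) (L L' : List (X × Bool)), L.length + L'.length = n →
    ¬ IsConj (FreeGroup.mk L) (FreeGroup.mk L') → Sep (FreeGroup.mk L) (FreeGroup.mk L') := by
  induction n using Nat.strong_induction_on with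
  | _ n ih =>
    intro X L L' hn hne
    have IH : ∀ (Y : Type u) (M M' : List (Y × Bool)), M.length + M'.length < n →
      ¬ IsConj (FreeGroup.mk M) (FreeGroup.mk M') → Sep (FreeGroup.mk M) (FreeGroup.mk M') :=
      fun Y M M' h1 h2 => ih _ h1 Y M M' rfl h2
    by_cases he : ∃ x, e x (FreeGroup.mk L) ≠ e x (FreeGroup.mk L')
    · obtain ⟨x, hx⟩ := he
      exact sep_of_e x hx
    push Not at he
    -- the step for both words
    have both : ∀ (p : ℕ) (_ : 2 ≤ p) (f : X → ZMod p) (x0 : X), f x0 = 1 →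
        deg f (FreeGroup.mk L) = 0 → deg f (FreeGroup.mk L') = 0 →
        ((∃ b, (x0, b) ∈ L) ∨ ∃ b, (x0, b) ∈ L') → Sep (FreeGroup.mk L) (FreeGroup.mk L') := by
      intro p hp f x0 hf hu hv hocc
      rcases hocc with hocc | hocc
      · exact step n IH L L' hn hne hp f x0 hf hu hv hocc
      · refine Sep.symm (step n IH L' L (by omega) (fun h => hne h.symm) hp f x0 hf hv hu hocc)
    by_cases hA : ∃ x, ((∃ b, (x, b) ∈ L) ∨ ∃ b, (x, b) ∈ L') ∧ e x (FreeGroup.mk L) = 0
    · obtain ⟨x, hx, hx0⟩ := hA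
      refine both 2 le_rfl (ff x x 0) x (by simp [ff]) ?_ ?_ hx
      · rw [deg_ff x x 0 (Or.inr rfl), hx0]; simp
      · rw [deg_ff x x 0 (Or.inr rfl), ← he x, hx0]; simp
    push Not at hA
    by_cases hB : ∃ x y, x ≠ y ∧ ((∃ b, (x, b) ∈ L) ∨ ∃ b, (x, b) ∈ L') ∧
        ((∃ b, (y, b) ∈ L) ∨ ∃ b, (y, b) ∈ L')
    · obtain ⟨x, y, hxy, hx, hy⟩ := hB
      have hy0 := hA y hy
      obtain ⟨p, hp1, hp⟩ := Nat.exists_infinite_primes ((e y (FreeGroup.mk L)).natAbs + 2)
      have : Fact p.Prime := ⟨hp⟩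
      have hcast : ((e y (FreeGroup.mk L) : ℤ) : ZMod p) ≠ 0 := by
        intro h
        rw [ZMod.intCast_zmod_eq_zero_iff_dvd] at h
        have h2 := Int.natAbs_dvd_natAbs.2 h
        rw [Int.natAbs_natCast] at h2
        have h4 := Nat.le_of_dvd (Nat.pos_of_ne_zero (Int.natAbs_ne_zero.2 hy0)) h2
        omega
      have key : ((e x (FreeGroup.mk L) : ℤ) : ZMod p) +
          (-((e x (FreeGroup.mk L) : ℤ) : ZMod p) / ((e y (FreeGroup.mk L) : ℤ) : ZMod p)) *
            ((e y (FreeGroup.mk L) : ℤ) : ZMod p) = 0 := by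
        field_simp
        ring
      refine both p hp.two_le (ff x y (-((e x (FreeGroup.mk L) : ℤ) : ZMod p) /
        ((e y (FreeGroup.mk L) : ℤ) : ZMod p))) x (by simp [ff]) ?_ ?_ hx
      · rw [deg_ff x y _ (Or.inl hxy)]; exact key
      · rw [deg_ff x y _ (Or.inl hxy), ← he x, ← he y]; exact key
    push Not at hB
    exfalso
    apply hne
    by_cases hz : ∃ x, (∃ b, (x, b) ∈ L) ∨ ∃ b, (x, b) ∈ L'
    · obtain ⟨x, hx⟩ := hz
      have h1 : ∀ a ∈ L, a.1 = x := by
        intro a ha
        by_contra hax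
        obtain ⟨h3, h4⟩ := hB a.1 x hax (Or.inl ⟨a.2, ha⟩)
        rcases hx with ⟨b, hb⟩ | ⟨b, hb⟩
        · exact h3 b hb
        · exact h4 b hb
      have h2 : ∀ a ∈ L', a.1 = x := by
        intro a ha
        by_contra hax
        obtain ⟨h3, h4⟩ := hB a.1 x hax (Or.inr ⟨a.2, ha⟩)
        rcases hx with ⟨b, hb⟩ | ⟨b, hb⟩
        · exact h3 b hb
        · exact h4 b hb
      rw [pow_of x L h1, pow_of x L' h2, he x]
    · push Not at hz
      have h1 : L = [] := List.eq_nil_iff_forall_not_mem.2 fun a ha => (hz a.1).1 a.2 ha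
      have h2 : L' = [] := List.eq_nil_iff_forall_not_mem.2 fun a ha => (hz a.1).2 a.2 ha
      rw [h1, h2]

/-- **Free groups are conjugacy separable.** -/
theorem free_conj_sep {X : Type u} (u v : FreeGroup X) (h : ¬ IsConj u v) :
    ∃ (Q : Type) (_ : Group Q) (_ : Finite Q) (ψ : FreeGroup X →* Q),
      ¬ IsConj (ψ u) (ψ v) := by
  obtain ⟨L, rfl⟩ := Quot.exists_rep u
  obtain ⟨L', rfl⟩ := Quot.exists_rep v
  exact main _ X L L' rfl h

end Pool.Agent.H94CS
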